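import Mathlib
import Pool.Agent.H.MP_713d40_gt.A
set_option autoImplicit false
namespace Pool.Agent.Results.MP_713d40_gt.No
open Set Topology TopologicalSpace Cardinal

universe u

def SCw (M : Type u) [TopologicalSpace M] : Set ((Σ n : ℕ, Fin n → M) → ℝ) :=
  {f | ∀ (n : ℕ) (i : Fin n) (x : Fin n → M),
    Continuous fun t : M => f ⟨n, Function.update x i t⟩}

theorem result : ∃ (X : Type) (_ : TopologicalSpace X), T35Space X ∧
    (∃ N : ℕ → Set (Set X), (∀ k, LocallyFinite fun s : N k => (s : Set X)) ∧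
      ∀ x U, IsOpen U → x ∈ U → ∃ k, ∃ s ∈ N k, x ∈ s ∧ s ⊆ U) ∧
    (∃ B : Set (Set X), IsTopologicalBasis B ∧ #B ≤ 𝔠) ∧
    ∀ (M : Type u) [TopologicalSpace M] [SeparableSpace M] [MetrizableSpace M],
      ¬ ∃ Φ : X → SCw M, IsEmbedding Φ :=
  Pool.Agent.H.MP_713d40_gt.main

end Pool.Agent.Results.MP_713d40_gt.No
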